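import Pool.Agent.H68.TP.Prikry

/-!
# Tree Prikry forcing adds no fresh subset of `κ⁺`

The forcing `H68.TP.TreePrikry U` (stem, tree, order) and the combinatorial form of: `P` adds a
fresh subset of `L` (`H68.TP.AddsFresh`: names `N : L → Set P` for subsets of `L`, the forcing
relation for `α ∈ A`, `α ∉ A`, `A ∩ β = a`) are in `Pool/Agent/H68/TP/`.

Proof. Conditions with the same stem are compatible, so for a name `A` of a subset of `λ` all
conditions with stem `s` which decide some initial part of `A` agree; let `A_s` be the set of all
`α` which some condition with stem `s` forces into `A`. There are only `κ` many pairs of stems,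
so there is `δ < λ` such that any two different `A_s`, `A_t` differ below `δ`. A condition `r`
with stem `s` deciding `A ∩ δ` can be extended to force `A ≠ A_s`, and then further to decide a
longer initial part of `A`; the new stem `t` has `A_t ≠ A_s` but `A_t ∩ δ = A_s ∩ δ`.
-/

universe u

namespace Pool.Agent.Results.MP_becacd_lc.NoFreshSubsets

open Cardinal Ordinal

/-- For every infinite cardinal `κ`, every filter `U` on `κ` and every ordinal `l` with
`cof l > κ` (for instance `l = κ⁺`), tree Prikry forcing over `U` adds no fresh subset of `l`. -/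
theorem result (κ : Cardinal.{u}) (hκ : ℵ₀ ≤ κ) (U : Filter κ.ord.ToType) (l : Ordinal.{u})
    (hl : κ < l.cof) : ¬ H68.TP.AddsFresh (H68.TP.TreePrikry U) l.ToType :=
  H68.TP.not_addsFresh κ hκ U l hl

/-- the case `l = κ⁺` of Q1. -/
theorem succ_case (κ : Cardinal.{u}) (hκ : ℵ₀ ≤ κ) (U : Filter κ.ord.ToType) :
    ¬ H68.TP.AddsFresh (H68.TP.TreePrikry U) (Order.succ κ).ord.ToType :=
  result κ hκ U _ (by
    rw [(Cardinal.isRegular_succ hκ).cof_ord]
    exact Order.lt_succ κ)

end Pool.Agent.Results.MP_becacd_lc.NoFreshSubsets
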